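import Mathlib
import Pool.Agent.Q227.Fur.Unif
import Pool.Agent.Results.MP_c9a594_an.GenericPoints

/-!
# Furstenberg's orbit closure conjecture along the visit times of minimal systems

Let `a ≥ 2`, let `O m r` be the closure of the orbit of `r` modulo one under multiplication by `m`,
and let `OA m A r` be the closure of the part of this orbit at the times in `A ⊆ ℕ`. A set `A` is
called `Visits` (dynamically syndetic) if it contains `{n : S ^ n y ∈ W}` for some minimal system
`(Y, S)` (`Y` compact Hausdorff), some `y` and some nonempty open `W`.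

1. Let `μ` be a non-atomic probability measure on the circle invariant under multiplication by `a`.
The points `x` of the support of `μ` with `OA b A x = [0,1]` for ALL `b ≥ 2` multiplicatively
independent of `a` and ALL `Visits` sets `A` form a residual subset of the support, and have full
measure.
2. The same points form a residual subset of every infinite minimal set of the multiplication by `a`.
3. Let `b` be multiplicatively independent of `a`, and `(Y, S)`, `W` as above. For all `ε, δ > 0`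
there is one `M` such that, for every irrational `x` and every fraction `x` with denominator at least
`M` and coprime to `a b`, in every window of at least `M` consecutive indices `i` all but a proportion
`δ` have the following property: for ALL `y ∈ Y` the orbit of `a ^ i x` under multiplication by `b`,
restricted to the visit times of `y` to `W`, is `ε`-dense.
-/

set_option autoImplicit false

open MeasureTheory Filter Topology Set TopologicalSpace

namespace Pool.Agent.Results.MP_c9a594_an.AlongReturnTimes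

/-- the closure of the orbit of `r` modulo one under multiplication by `m` -/
def O (m : ℕ) (r : ℝ) : Set ℝ := closure (range fun n : ℕ => Int.fract ((m : ℝ) ^ n * r))

/-- the closure of the part of the orbit of `r` modulo one under multiplication by `m` at the times
in `A` -/
def OA (m : ℕ) (A : Set ℕ) (r : ℝ) : Set ℝ :=
  closure ((fun n : ℕ => Int.fract ((m : ℝ) ^ n * r)) '' A)

/-- multiplicative independence -/
def Indep (a b : ℕ) : Prop := ∀ k l : ℕ, 0 < k → 0 < l → a ^ k ≠ b ^ l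

/-- `A` contains the visit times of some point of a minimal system to a nonempty open set -/
def Visits (A : Set ℕ) : Prop :=
  ∃ (Y : Type) (_ : TopologicalSpace Y) (_ : CompactSpace Y) (_ : T2Space Y) (S : Y → Y),
    Continuous S ∧ (∀ y, Dense (range fun n : ℕ => S^[n] y)) ∧
      ∃ y : Y, ∃ W : Set Y, IsOpen W ∧ W.Nonempty ∧ ∀ n : ℕ, S^[n] y ∈ W → n ∈ A

/-- for all `b ≥ 2` multiplicatively independent of `a` and all sets `A` of visit times, the orbit
along `A` under multiplication by `b` is dense, and in particular the dimension inequality of the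
conjecture holds along `A`; for all real numbers `r` in the class `x` modulo one -/
def Good (a : ℕ) (x : AddCircle (1 : ℝ)) : Prop :=
  ∀ r : ℝ, (r : AddCircle (1 : ℝ)) = x → ∀ b : ℕ, 2 ≤ b → Indep a b → ∀ A : Set ℕ, Visits A →
    OA b A r = Icc 0 1 ∧ 1 ≤ dimH (O a r) + dimH (OA b A r)

theorem dense_of_closure {b : ℕ} {r : ℝ}
    (h : closure (range fun n : ℕ => Int.fract ((b : ℝ) ^ n * r)) = Icc 0 1) :
    Dense (range fun n : ℕ => b ^ n • (r : AddCircle (1 : ℝ))) := by
  intro x
  rw [Metric.mem_closure_range_iff]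
  intro ε hε
  obtain ⟨t, ht, rfl⟩ : ∃ t ∈ Icc (0 : ℝ) 1, (t : AddCircle (1 : ℝ)) = x := by
    obtain ⟨u, rfl⟩ := QuotientAddGroup.mk_surjective x
    refine ⟨Int.fract u, ⟨Int.fract_nonneg _, (Int.fract_lt_one _).le⟩, ?_⟩
    rw [← Int.self_sub_floor, AddCircle.coe_sub]
    have : ((⌊u⌋ : ℝ) : AddCircle (1 : ℝ)) = 0 := by
      rw [AddCircle.coe_eq_zero_iff]; exact ⟨⌊u⌋, by simp⟩
    rw [this, sub_zero]
  rw [← h, Metric.mem_closure_range_iff] at ht
  obtain ⟨n, hn⟩ := ht ε hε
  refine ⟨n, ?_⟩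
  have e : b ^ n • (r : AddCircle (1 : ℝ)) =
      ((Int.fract ((b : ℝ) ^ n * r) : ℝ) : AddCircle (1 : ℝ)) := by
    rw [← Pool.Agent.W765.Det.coe_pow_mul, ← Int.self_sub_floor, AddCircle.coe_sub]
    have : ((⌊(b : ℝ) ^ n * r⌋ : ℝ) : AddCircle (1 : ℝ)) = 0 := by
      rw [AddCircle.coe_eq_zero_iff]; exact ⟨⌊(b : ℝ) ^ n * r⌋, by simp⟩
    rw [this, sub_zero]
  rw [e]
  refine lt_of_le_of_lt (Pool.Agent.H847R3.XpXq.dist_coe_le _ _) ?_
  rwa [Real.dist_eq] at hn

theorem indep_pow {a b : ℕ} (h : Indep a b) {r : ℕ} (hr : 1 ≤ r) : Indep a (b ^ r) := by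
  intro k l hk hl hkl
  refine h k (r * l) hk (Nat.mul_pos hr hl) ?_
  rw [hkl, ← pow_mul]

theorem good_of_good {a : ℕ} {x : AddCircle (1 : ℝ)}
    (h : Pool.Agent.Results.MP_c9a594_an.GenericPoints.Good a x) : Good a x := by
  rintro r rfl b hb hab A ⟨Y, _, _, _, S, hS, hm, y, W, hW, hWn, hA⟩
  have hd : ∀ k : ℕ, 1 ≤ k →
      Dense (range fun n : ℕ => (b ^ k) ^ n • (r : AddCircle (1 : ℝ))) := by
    intro k hk
    have h1 := (h r rfl (b ^ k) (hb.trans (Nat.le_self_pow (by omega) b)) (indep_pow hab hk)).1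
    exact dense_of_closure h1
  have hdp := Pool.Agent.Q227.Fur.dense_prod hb hS hm hd y
  have h1 : OA b A r = Icc 0 1 := by
    refine subset_antisymm ?_ ?_
    · refine closure_minimal ?_ isClosed_Icc
      rintro _ ⟨n, -, rfl⟩
      exact ⟨Int.fract_nonneg _, (Int.fract_lt_one _).le⟩
    · rw [← closure_Ioo (zero_ne_one' ℝ)]
      refine closure_minimal ?_ isClosed_closure
      intro t ht
      refine mem_closure_iff.2 fun V hV htV => ?_
      obtain ⟨_, ⟨n, rfl⟩, h1, h2⟩ := hdp.exists_mem_open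
        ((Pool.Agent.W765.Det.isOpen_image_coe (hV.inter isOpen_Ioo)).prod hW)
        (Set.Nonempty.prod ⟨_, t, ⟨htV, ht⟩, rfl⟩ hWn)
      have h3 : b ^ n • (r : AddCircle (1 : ℝ)) ∈
          (fun t : ℝ => (t : AddCircle (1 : ℝ))) '' (V ∩ Ioo 0 1) := h1
      rw [← Pool.Agent.W765.Det.coe_pow_mul,
        Pool.Agent.W765.Det.fract_mem_iff inter_subset_right] at h3
      exact ⟨_, h3.1, n, hA n h2, rfl⟩
  refine ⟨h1, ?_⟩
  have h2 : dimH (OA b A r) = 1 := by
    rw [h1]
    have h3 : (interior (Icc (0 : ℝ) 1)).Nonempty := by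
      rw [interior_Icc]; exact ⟨1 / 2, by norm_num, by norm_num⟩
    rw [Real.dimH_of_nonempty_interior h3]
    simp
  rw [h2]
  exact le_add_self

/-- closeness on the circle to a point of `[η, 1 - η]` is closeness of the representatives -/
theorem fract_close {u t η : ℝ} (ht0 : η ≤ t) (ht1 : t ≤ 1 - η)
    (h : dist (u : AddCircle (1 : ℝ)) (t : AddCircle (1 : ℝ)) < η) : |Int.fract u - t| < η := by
  rw [dist_eq_norm, ← AddCircle.coe_sub, UnitAddCircle.norm_eq] at h
  set k : ℤ := round (u - t) with hk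
  have h0 := Int.fract_nonneg u
  have h1 := Int.fract_lt_one u
  have h2 : u = ⌊u⌋ + Int.fract u := (Int.floor_add_fract u).symm
  rw [abs_lt] at h
  have h3 : k = ⌊u⌋ := by
    have h4 : (k : ℝ) < ⌊u⌋ + 1 := by linarith [h.1, h.2]
    have h5 : (⌊u⌋ : ℝ) < k + 1 := by linarith [h.1, h.2]
    have h4' : k < ⌊u⌋ + 1 := by exact_mod_cast h4
    have h5' : ⌊u⌋ < k + 1 := by exact_mod_cast h5
    omega
  rw [h3] at h
  rw [abs_lt]
  constructor <;> linarith [h.1, h.2]

open Classical in
/-- **Furstenberg's orbit closure conjecture along visit times of minimal systems.** -/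
theorem result (a : ℕ) (ha : 2 ≤ a) :
    (∀ μ : Measure (AddCircle (1 : ℝ)), IsProbabilityMeasure μ → (∀ x, μ {x} = 0) →
      MeasurePreserving (fun x : AddCircle (1 : ℝ) => a • x) μ μ →
        {x : μ.support | Good a x} ∈ residual μ.support ∧ ∀ᵐ x ∂μ, x ∈ μ.support ∧ Good a x) ∧
    (∀ X : Set (AddCircle (1 : ℝ)), IsClosed X → X.Infinite → (∀ x ∈ X, a • x ∈ X) →
      (∀ x ∈ X, X ⊆ closure (range fun n : ℕ => a ^ n • x)) →
        {x : X | Good a x} ∈ residual X) ∧
    (∀ b : ℕ, 2 ≤ b → Indep a b →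
      ∀ (Y : Type) [TopologicalSpace Y] [CompactSpace Y] [T2Space Y] (S : Y → Y), Continuous S →
      (∀ y, Dense (range fun n : ℕ => S^[n] y)) → ∀ W : Set Y, IsOpen W → W.Nonempty →
      ∀ ε : ℝ, 0 < ε → ∀ δ : ℝ, 0 < δ → ∃ M : ℕ, ∀ x : ℝ,
      (Irrational x ∨ ∃ k N : ℕ, M ≤ N ∧ N.Coprime (a * b) ∧ k.Coprime N ∧ x = k / N) →
      ∀ s n : ℕ, M ≤ n →
        (((Finset.range n).filter (fun i => ∃ y : Y, ∃ t ∈ Icc (0 : ℝ) 1, ∀ m : ℕ, S^[m] y ∈ W →
          ε ≤ |Int.fract ((b : ℝ) ^ m * ((a : ℝ) ^ (s + i) * x)) - t|)).card : ℝ) ≤ δ * n) := by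
  obtain ⟨h1, h2, h3⟩ := Pool.Agent.Results.MP_c9a594_an.GenericPoints.result a ha
  refine ⟨fun μ hμ hat hinv => ?_, fun X hX hinf hXinv hmin => ?_,
    fun b hb hab Y _ _ _ S hS hm W hW hWn ε hε δ hδ => ?_⟩
  · obtain ⟨h4, h5⟩ := h1 μ hμ hat hinv
    exact ⟨Filter.mem_of_superset h4 fun x hx => good_of_good hx,
      h5.mono fun x hx => ⟨hx.1, good_of_good hx.2⟩⟩
  · exact Filter.mem_of_superset (h2 X hX hinf hXinv hmin) fun x hx => good_of_good hx
  · -- replace `ε` by a smaller number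
    obtain ⟨ζ, hζ0, hζ1, hζ2⟩ : ∃ ζ : ℝ, 0 < ζ ∧ 2 * ζ ≤ ε ∧ 2 * ζ ≤ 1 :=
      ⟨min (ε / 2) (1 / 2), by positivity, by linarith [min_le_left (ε / 2) (1 / 2)],
        by linarith [min_le_right (ε / 2) (1 / 2)]⟩
    obtain ⟨η, hη, hu⟩ := Pool.Agent.Q227.Fur.unif hb hS hm hW hWn hζ0
    obtain ⟨M, hM⟩ := h3 b hb hab η hη δ hδ
    refine ⟨M, fun x hx s n hn => le_trans ?_ (hM x hx s n hn)⟩
    have hsub : (Finset.range n).filter (fun i => ∃ y : Y, ∃ t ∈ Icc (0 : ℝ) 1, ∀ m : ℕ,
        S^[m] y ∈ W → ε ≤ |Int.fract ((b : ℝ) ^ m * ((a : ℝ) ^ (s + i) * x)) - t|) ⊆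
        (Finset.range n).filter (fun i => ∃ y ∈ Icc (0 : ℝ) 1, ∀ m : ℕ,
          η ≤ |Int.fract ((b : ℝ) ^ m * ((a : ℝ) ^ (s + i) * x)) - y|) := by
      intro i hi
      rw [Finset.mem_filter] at hi ⊢
      refine ⟨hi.1, ?_⟩
      obtain ⟨y, t, ht, hyt⟩ := hi.2
      by_contra hcon
      push Not at hcon
      set z : ℝ := (a : ℝ) ^ (s + i) * x with hz
      have h4 : ∀ c : AddCircle (1 : ℝ), ∃ m : ℕ, dist (b ^ m • (z : AddCircle (1 : ℝ))) c < η := by
        intro c
        obtain ⟨u, rfl⟩ := QuotientAddGroup.mk_surjective c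
        obtain ⟨m, hm⟩ := hcon (Int.fract u) ⟨Int.fract_nonneg _, (Int.fract_lt_one _).le⟩
        refine ⟨m, ?_⟩
        have e : ∀ v : ℝ, (v : AddCircle (1 : ℝ)) = ((Int.fract v : ℝ) : AddCircle (1 : ℝ)) := by
          intro v
          rw [← Int.self_sub_floor, AddCircle.coe_sub]
          have : ((⌊v⌋ : ℝ) : AddCircle (1 : ℝ)) = 0 := by
            rw [AddCircle.coe_eq_zero_iff]; exact ⟨⌊v⌋, by simp⟩
          rw [this, sub_zero]
        show dist (b ^ m • (z : AddCircle (1 : ℝ))) (u : AddCircle (1 : ℝ)) < η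
        rw [← Pool.Agent.W765.Det.coe_pow_mul, e, e u]
        exact lt_of_le_of_lt (Pool.Agent.H847R3.XpXq.dist_coe_le _ _) hm
      -- a target at distance at least `ζ` from the endpoints
      obtain ⟨t', ht'0, ht'1, htt⟩ : ∃ t' : ℝ, ζ ≤ t' ∧ t' ≤ 1 - ζ ∧ |t' - t| ≤ ζ := by
        refine ⟨max ζ (min t (1 - ζ)), le_max_left _ _, max_le (by linarith) (min_le_right _ _), ?_⟩
        rw [abs_le]
        constructor
        · have h5 : min t (1 - ζ) ≤ max ζ (min t (1 - ζ)) := le_max_right _ _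
          have h6 : t - ζ ≤ min t (1 - ζ) := le_min (by linarith) (by linarith [ht.2])
          linarith
        · have h5 : max ζ (min t (1 - ζ)) ≤ t + ζ :=
            max_le (by linarith [ht.1]) ((min_le_left _ _).trans (by linarith))
          linarith
      obtain ⟨m, hmW, hm⟩ := hu _ h4 y (t' : AddCircle (1 : ℝ))
      rw [← Pool.Agent.W765.Det.coe_pow_mul] at hm
      have h5 := fract_close ht'0 ht'1 hm
      have h6 := hyt m hmW
      have h7 := abs_sub_le (Int.fract ((b : ℝ) ^ m * z)) t' t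
      linarith
    exact_mod_cast Finset.card_le_card hsub

end Pool.Agent.Results.MP_c9a594_an.AlongReturnTimes
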