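import Mathlib
import Pool.Agent.Q227.Fur.Unif2
import Pool.Agent.Results.MP_c9a594_an.AlongReturnTimes

/-!
# Furstenberg's orbit closure conjecture: orbits at the pairs visited by minimal `ℕ × ℕ`-systems

A set `A ⊆ ℕ × ℕ` is called `Visits2` if it contains `{(m, l) : S₁ ^ m S₂ ^ l y ∈ W}` for commuting
continuous maps `S₁, S₂` of a compact Hausdorff space `Y` all of whose orbits
`{S₁ ^ m S₂ ^ l y : m, l ≥ 0}` are dense, some `y` and some nonempty open `W`.

1. Let `μ` be a non-atomic probability measure on the circle invariant under multiplication by `a`.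
The points `x` of the support for which the fractional parts of `b ^ m q ^ l x`, `(m, l) ∈ A`, are dense
in `[0,1]` for ALL `b ≥ 2` multiplicatively independent of `a`, ALL `q ≥ 2` and ALL `Visits2` sets `A`
form a residual subset of the support, and have full measure.
2. The same points form a residual subset of every infinite minimal set of the multiplication by `a`.
3. Let `b` be multiplicatively independent of `a`, and `(Y, S₁, S₂)`, `W` as above. For every `ε > 0`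
there is `N` such that for every `δ > 0` there is `M` with: for every irrational `x` and every window of
at least `M` consecutive indices `i`, all but a proportion `δ` of them have the following property: for
ALL `y ∈ Y` the fractional parts of `b ^ m a ^ (i + l) x` with `m ≥ 0`, `l ≤ N` and
`S₁ ^ m S₂ ^ (i + l) y ∈ W` are `ε`-dense.
-/

set_option autoImplicit false

open MeasureTheory Filter Topology Set TopologicalSpace

namespace Pool.Agent.Results.MP_c9a594_an.AlongVisitPairs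

open AlongReturnTimes (Indep indep_pow dense_of_closure fract_close)

/-- the closure of the fractional parts of `b ^ m q ^ l r`, `(m, l) ∈ A` -/
def OA2 (b q : ℕ) (A : Set (ℕ × ℕ)) (r : ℝ) : Set ℝ :=
  closure ((fun n : ℕ × ℕ => Int.fract ((b : ℝ) ^ n.1 * (q : ℝ) ^ n.2 * r)) '' A)

/-- `A` contains the pairs of times of the visits of some point of a minimal `ℕ × ℕ`-system to a
nonempty open set -/
def Visits2 (A : Set (ℕ × ℕ)) : Prop :=
  ∃ (Y : Type) (_ : TopologicalSpace Y) (_ : CompactSpace Y) (_ : T2Space Y) (S₁ S₂ : Y → Y),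
    Continuous S₁ ∧ Continuous S₂ ∧ Function.Commute S₁ S₂ ∧
    (∀ y, Dense (range fun n : ℕ × ℕ => S₁^[n.1] (S₂^[n.2] y))) ∧
      ∃ y : Y, ∃ W : Set Y, IsOpen W ∧ W.Nonempty ∧
        ∀ n : ℕ × ℕ, S₁^[n.1] (S₂^[n.2] y) ∈ W → n ∈ A

/-- for all `b ≥ 2` multiplicatively independent of `a`, all `q ≥ 2` and all `Visits2` sets `A` the
fractional parts of `b ^ m q ^ l r`, `(m, l) ∈ A`, are dense in `[0,1]`; for all `r` in the class `x` -/
def Good2 (a : ℕ) (x : AddCircle (1 : ℝ)) : Prop :=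
  ∀ r : ℝ, (r : AddCircle (1 : ℝ)) = x → ∀ b : ℕ, 2 ≤ b → Indep a b → ∀ q : ℕ, 2 ≤ q →
    ∀ A : Set (ℕ × ℕ), Visits2 A → OA2 b q A r = Icc 0 1

theorem coe_mul (b q m l : ℕ) (r : ℝ) :
    (((b : ℝ) ^ m * (q : ℝ) ^ l * r : ℝ) : AddCircle (1 : ℝ)) =
      (b ^ m * q ^ l) • (r : AddCircle (1 : ℝ)) := by
  rw [← AddCircle.coe_nsmul, nsmul_eq_mul]
  push_cast
  rfl

theorem along2 {b q : ℕ} (hb : 2 ≤ b) (hq : 2 ≤ q) {r : ℝ}
    (h : ∀ k : ℕ, 1 ≤ k → Dense (range fun n : ℕ => (b ^ k) ^ n • (r : AddCircle (1 : ℝ))))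
    {A : Set (ℕ × ℕ)} (hA : Visits2 A) : OA2 b q A r = Icc 0 1 := by
  obtain ⟨Y, _, _, _, S₁, S₂, h₁, h₂, hc, hm, y, W, hW, hWn, hA⟩ := hA
  have hdp := Pool.Agent.Q227.Fur.dense_prod2 hb hq h₁ h₂ hc hm (x := (r : AddCircle (1 : ℝ)))
    (fun k hk => (h k hk).mono (by
      rintro _ ⟨n, rfl⟩
      exact ⟨n, 0, by simp⟩)) y
  refine subset_antisymm ?_ ?_
  · refine closure_minimal ?_ isClosed_Icc
    rintro _ ⟨n, -, rfl⟩
    exact ⟨Int.fract_nonneg _, (Int.fract_lt_one _).le⟩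
  · rw [← closure_Ioo (zero_ne_one' ℝ)]
    refine closure_minimal ?_ isClosed_closure
    intro t ht
    refine mem_closure_iff.2 fun V hV htV => ?_
    obtain ⟨_, ⟨n, rfl⟩, h1, h2⟩ := hdp.exists_mem_open
      ((Pool.Agent.W765.Det.isOpen_image_coe (hV.inter isOpen_Ioo)).prod hW)
      (Set.Nonempty.prod ⟨_, t, ⟨htV, ht⟩, rfl⟩ hWn)
    have h3 : (b ^ n.1 * q ^ n.2) • (r : AddCircle (1 : ℝ)) ∈
        (fun t : ℝ => (t : AddCircle (1 : ℝ))) '' (V ∩ Ioo 0 1) := h1
    rw [← coe_mul, Pool.Agent.W765.Det.fract_mem_iff inter_subset_right] at h3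
    exact ⟨_, h3.1, n, hA n h2, rfl⟩

theorem good2_of_good {a : ℕ} {x : AddCircle (1 : ℝ)}
    (h : Pool.Agent.Results.MP_c9a594_an.GenericPoints.Good a x) : Good2 a x := by
  rintro r rfl b hb hab q hq A hA
  refine along2 hb hq (fun k hk => ?_) hA
  exact dense_of_closure
    (h r rfl (b ^ k) (hb.trans (Nat.le_self_pow (by omega) b)) (indep_pow hab hk)).1

open Classical in
/-- **Furstenberg's orbit closure conjecture at the pairs visited by minimal `ℕ × ℕ`-systems.** -/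
theorem result (a : ℕ) (ha : 2 ≤ a) :
    (∀ μ : Measure (AddCircle (1 : ℝ)), IsProbabilityMeasure μ → (∀ x, μ {x} = 0) →
      MeasurePreserving (fun x : AddCircle (1 : ℝ) => a • x) μ μ →
        {x : μ.support | Good2 a x} ∈ residual μ.support ∧ ∀ᵐ x ∂μ, x ∈ μ.support ∧ Good2 a x) ∧
    (∀ X : Set (AddCircle (1 : ℝ)), IsClosed X → X.Infinite → (∀ x ∈ X, a • x ∈ X) →
      (∀ x ∈ X, X ⊆ closure (range fun n : ℕ => a ^ n • x)) →
        {x : X | Good2 a x} ∈ residual X) ∧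
    (∀ b : ℕ, 2 ≤ b → Indep a b →
      ∀ (Y : Type) [TopologicalSpace Y] [CompactSpace Y] [T2Space Y] (S₁ S₂ : Y → Y),
      Continuous S₁ → Continuous S₂ → Function.Commute S₁ S₂ →
      (∀ y, Dense (range fun n : ℕ × ℕ => S₁^[n.1] (S₂^[n.2] y))) →
      ∀ W : Set Y, IsOpen W → W.Nonempty →
      ∀ ε : ℝ, 0 < ε → ∃ N : ℕ, ∀ δ : ℝ, 0 < δ → ∃ M : ℕ, ∀ x : ℝ,
      (Irrational x ∨ ∃ k N : ℕ, M ≤ N ∧ N.Coprime (a * b) ∧ k.Coprime N ∧ x = k / N) →
      ∀ s n : ℕ, M ≤ n →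
        (((Finset.Ico s (s + n)).filter (fun i => ∃ y : Y, ∃ t ∈ Icc (0 : ℝ) 1, ∀ m l : ℕ, l ≤ N →
          S₁^[m] (S₂^[i + l] y) ∈ W →
          ε ≤ |Int.fract ((b : ℝ) ^ m * ((a : ℝ) ^ (i + l) * x)) - t|)).card : ℝ) ≤ δ * n) := by
  obtain ⟨h1, h2, h3⟩ := Pool.Agent.Results.MP_c9a594_an.GenericPoints.result a ha
  refine ⟨fun μ hμ hat hinv => ?_, fun X hX hinf hXinv hmin => ?_,
    fun b hb hab Y _ _ _ S₁ S₂ hS₁ hS₂ hc hm W hW hWn ε hε => ?_⟩
  · obtain ⟨h4, h5⟩ := h1 μ hμ hat hinv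
    exact ⟨Filter.mem_of_superset h4 fun x hx => good2_of_good hx,
      h5.mono fun x hx => ⟨hx.1, good2_of_good hx.2⟩⟩
  · exact Filter.mem_of_superset (h2 X hX hinf hXinv hmin) fun x hx => good2_of_good hx
  · -- replace `ε` by a smaller number
    obtain ⟨ζ, hζ0, hζ1, hζ2⟩ : ∃ ζ : ℝ, 0 < ζ ∧ 2 * ζ ≤ ε ∧ 2 * ζ ≤ 1 :=
      ⟨min (ε / 2) (1 / 2), by positivity, by linarith [min_le_left (ε / 2) (1 / 2)],
        by linarith [min_le_right (ε / 2) (1 / 2)]⟩
    obtain ⟨η, N, hη, hu⟩ := Pool.Agent.Q227.Fur.unif2 hb ha hS₁ hS₂ hc hm hW hWn hζ0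
    refine ⟨N, fun δ hδ => ?_⟩
    obtain ⟨M, hM⟩ := h3 b hb hab η hη δ hδ
    refine ⟨M, fun x hx s n hn => le_trans ?_ (hM x hx s n hn)⟩
    have hsub : (Finset.Ico s (s + n)).filter (fun i => ∃ y : Y, ∃ t ∈ Icc (0 : ℝ) 1, ∀ m l : ℕ,
        l ≤ N → S₁^[m] (S₂^[i + l] y) ∈ W →
          ε ≤ |Int.fract ((b : ℝ) ^ m * ((a : ℝ) ^ (i + l) * x)) - t|) ⊆
        ((Finset.range n).filter (fun i => ∃ y ∈ Icc (0 : ℝ) 1, ∀ m : ℕ,
          η ≤ |Int.fract ((b : ℝ) ^ m * ((a : ℝ) ^ (s + i) * x)) - y|)).image (fun i => s + i) := by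
      intro i hi
      rw [Finset.mem_filter, Finset.mem_Ico] at hi
      rw [Finset.mem_image]
      obtain ⟨⟨hi1, hi2⟩, y, t, ht, hyt⟩ := hi
      refine ⟨i - s, ?_, by omega⟩
      rw [Finset.mem_filter, Finset.mem_range]
      refine ⟨by omega, ?_⟩
      rw [show s + (i - s) = i by omega]
      by_contra hcon
      push Not at hcon
      set z : ℝ := (a : ℝ) ^ i * x with hz
      have h4 : ∀ c : AddCircle (1 : ℝ), ∃ m : ℕ, dist (b ^ m • (z : AddCircle (1 : ℝ))) c < η := by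
        intro c
        obtain ⟨u, rfl⟩ := QuotientAddGroup.mk_surjective c
        obtain ⟨m, hm⟩ := hcon (Int.fract u) ⟨Int.fract_nonneg _, (Int.fract_lt_one _).le⟩
        refine ⟨m, ?_⟩
        have e : ∀ v : ℝ, (v : AddCircle (1 : ℝ)) = ((Int.fract v : ℝ) : AddCircle (1 : ℝ)) := by
          intro v
          rw [← Int.self_sub_floor, AddCircle.coe_sub]
          have : ((⌊v⌋ : ℝ) : AddCircle (1 : ℝ)) = 0 := by
            rw [AddCircle.coe_eq_zero_iff]; exact ⟨⌊v⌋, by simp⟩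
          rw [this, sub_zero]
        show dist (b ^ m • (z : AddCircle (1 : ℝ))) (u : AddCircle (1 : ℝ)) < η
        rw [← Pool.Agent.W765.Det.coe_pow_mul, e, e u]
        exact lt_of_le_of_lt (Pool.Agent.H847R3.XpXq.dist_coe_le _ _) hm
      -- a target at distance at least `ζ` from the endpoints
      obtain ⟨t', ht'0, ht'1, htt⟩ : ∃ t' : ℝ, ζ ≤ t' ∧ t' ≤ 1 - ζ ∧ |t' - t| ≤ ζ := by
        refine ⟨max ζ (min t (1 - ζ)), le_max_left _ _, max_le (by linarith) (min_le_right _ _), ?_⟩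
        rw [abs_le]
        constructor
        · have h5 : min t (1 - ζ) ≤ max ζ (min t (1 - ζ)) := le_max_right _ _
          have h6 : t - ζ ≤ min t (1 - ζ) := le_min (by linarith) (by linarith [ht.2])
          linarith
        · have h5 : max ζ (min t (1 - ζ)) ≤ t + ζ :=
            max_le (by linarith [ht.1]) ((min_le_left _ _).trans (by linarith))
          linarith
      obtain ⟨m, l, hl, hmW, hm⟩ := hu _ h4 (S₂^[i] y) (t' : AddCircle (1 : ℝ))
      rw [← coe_mul] at hm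
      have h5 := fract_close ht'0 ht'1 hm
      rw [← Function.iterate_add_apply, show l + i = i + l by omega] at hmW
      have h6 := hyt m l hl hmW
      have e : (b : ℝ) ^ m * (a : ℝ) ^ l * z = (b : ℝ) ^ m * ((a : ℝ) ^ (i + l) * x) := by
        rw [hz, pow_add]
        ring
      rw [e] at h5
      have h7 := abs_sub_le (Int.fract ((b : ℝ) ^ m * ((a : ℝ) ^ (i + l) * x))) t' t
      linarith
    have h8 := (Finset.card_le_card hsub).trans Finset.card_image_le
    exact_mod_cast h8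

end Pool.Agent.Results.MP_c9a594_an.AlongVisitPairs
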