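import Mathlib
import Pool.Agent.Results.MP_c9a594_an.AlongReturnTimes
import Pool.Agent.Results.MP_c9a594_an.GenericLiouvilleDense
import Pool.Agent.Results.MP_c9a594_an.SmoothLiouville

/-!
# Furstenberg's orbit closure conjecture along visit times: Liouville numbers

`Visits A` says that `A ⊆ ℕ` contains the times `{n : S ^ n y ∈ W}` for some minimal system `(Y, S)`
(`Y` compact Hausdorff), some `y` and some nonempty open `W`; `OA b A x` is the closure of the fractional
parts of `b ^ n x`, `n ∈ A`.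

1. If the orbits of the real number `x` under multiplication by `b ^ r` are dense modulo one for all
`r ≥ 1`, then `OA b A x = [0,1]` for all visit sets `A`.
2. There is a set `Q` of natural density one such that every real number `x` with `|x - c/q| ≤ q ^ (-q)`
for infinitely many `q ∈ Q`, `c` coprime to `q`, satisfies `OA b A x = [0,1]` for ALL `b ≥ 2` and ALL
visit sets `A`.
3. The same holds for all `b` coprime to `s` and all visit sets, if `x` is irrational and
`‖q x‖ ≤ q ^ (-q)` for arbitrarily large `q` all of whose prime factors divide `s`.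
-/

set_option autoImplicit false

open MeasureTheory Filter Topology Set TopologicalSpace

namespace Pool.Agent.Results.MP_c9a594_an.LiouvilleAlongVisits

open AlongReturnTimes

theorem along {b : ℕ} (hb : 2 ≤ b) {r : ℝ}
    (h : ∀ k : ℕ, 1 ≤ k → closure (range fun n : ℕ => Int.fract (((b : ℝ) ^ k) ^ n * r)) = Icc 0 1)
    {A : Set ℕ} (hA : Visits A) : OA b A r = Icc 0 1 := by
  obtain ⟨Y, _, _, _, S, hS, hm, y, W, hW, hWn, hA⟩ := hA
  have hd : ∀ k : ℕ, 1 ≤ k →
      Dense (range fun n : ℕ => (b ^ k) ^ n • (r : AddCircle (1 : ℝ))) := by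
    intro k hk
    refine dense_of_closure (b := b ^ k) ?_
    have := h k hk
    push_cast
    exact this
  have hdp := Pool.Agent.Q227.Fur.dense_prod hb hS hm hd y
  refine subset_antisymm ?_ ?_
  · refine closure_minimal ?_ isClosed_Icc
    rintro _ ⟨n, -, rfl⟩
    exact ⟨Int.fract_nonneg _, (Int.fract_lt_one _).le⟩
  · rw [← closure_Ioo (zero_ne_one' ℝ)]
    refine closure_minimal ?_ isClosed_closure
    intro t ht
    refine mem_closure_iff.2 fun V hV htV => ?_
    obtain ⟨_, ⟨n, rfl⟩, h1, h2⟩ := hdp.exists_mem_open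
      ((Pool.Agent.W765.Det.isOpen_image_coe (hV.inter isOpen_Ioo)).prod hW)
      (Set.Nonempty.prod ⟨_, t, ⟨htV, ht⟩, rfl⟩ hWn)
    have h3 : b ^ n • (r : AddCircle (1 : ℝ)) ∈
        (fun t : ℝ => (t : AddCircle (1 : ℝ))) '' (V ∩ Ioo 0 1) := h1
    rw [← Pool.Agent.W765.Det.coe_pow_mul,
      Pool.Agent.W765.Det.fract_mem_iff inter_subset_right] at h3
    exact ⟨_, h3.1, n, hA n h2, rfl⟩

theorem dim_along {b : ℕ} {r : ℝ} {A : Set ℕ} (h : OA b A r = Icc 0 1) : dimH (OA b A r) = 1 := by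
  rw [h]
  have h3 : (interior (Icc (0 : ℝ) 1)).Nonempty := by
    rw [interior_Icc]; exact ⟨1 / 2, by norm_num, by norm_num⟩
  rw [Real.dimH_of_nonempty_interior h3]
  simp

theorem fract_orbit (c : ℕ) (x : ℝ) :
    Int.fract ((c : ℝ) * Int.fract x) = Int.fract ((c : ℝ) * x) := by
  have : (c : ℝ) * x = (c : ℝ) * Int.fract x + ((c * ⌊x⌋ : ℤ) : ℝ) := by
    push_cast
    rw [← mul_add, add_comm, Int.floor_add_fract]
  rw [this, Int.fract_add_intCast]

/-- **Liouville numbers along visit times of minimal systems.** -/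
theorem result :
    (∀ b : ℕ, 2 ≤ b → ∀ x : ℝ,
      (∀ k : ℕ, 1 ≤ k →
        closure (range fun n : ℕ => Int.fract (((b : ℝ) ^ k) ^ n * x)) = Icc 0 1) →
      ∀ A : Set ℕ, Visits A → OA b A x = Icc 0 1) ∧
    (∃ Q : Set ℕ,
      Tendsto (fun X : ℕ => (({q : ℕ | 1 ≤ q ∧ q ≤ X ∧ q ∈ Q} : Set ℕ).ncard : ℝ) / X)
        atTop (𝓝 1) ∧
      ∀ x : ℝ,
        (∀ K : ℕ, ∃ q ∈ Q, K ≤ q ∧ ∃ c : ℤ, IsCoprime c q ∧ |x - c / q| ≤ 1 / (q : ℝ) ^ q) →
        (∀ b : ℕ, 2 ≤ b → ∀ A : Set ℕ, Visits A → OA b A x = Icc 0 1) ∧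
        ∀ a b : ℕ, 2 ≤ a → 2 ≤ b → ∀ A B : Set ℕ, Visits A → Visits B →
          dimH (OA a A x) + dimH (OA b B x) = 2) ∧
    (∀ b s : ℕ, 2 ≤ b → 1 ≤ s → Nat.Coprime b s → ∀ x : ℝ, Irrational x →
      (∀ K : ℕ, ∃ q : ℕ, K ≤ q ∧ (∀ p : ℕ, p.Prime → p ∣ q → p ∣ s) ∧
        ∃ c : ℤ, |q * x - c| ≤ 1 / (q : ℝ) ^ q) →
      ∀ A : Set ℕ, Visits A → OA b A x = Icc 0 1 ∧
        ∀ (a : ℕ) (B : Set ℕ), 1 ≤ dimH (OA a B x) + dimH (OA b A x)) := by
  refine ⟨fun b hb x hx A hA => along hb hx hA, ?_, ?_⟩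
  · obtain ⟨Q, hQ, h⟩ := GenericLiouvilleDense.result
    have key : ∀ x : ℝ,
        (∀ K : ℕ, ∃ q ∈ Q, K ≤ q ∧ ∃ c : ℤ, IsCoprime c q ∧ |x - c / q| ≤ 1 / (q : ℝ) ^ q) →
        ∀ b : ℕ, 2 ≤ b → ∀ A : Set ℕ, Visits A → OA b A x = Icc 0 1 := by
      intro x hx b hb A hA
      refine along hb (fun k hk => ?_) hA
      have h1 := (h x hx).1 (b ^ k) (hb.trans (Nat.le_self_pow (by omega) b))
      push_cast at h1
      exact h1
    refine ⟨Q, hQ, fun x hx => ⟨key x hx, fun a b ha hb A B hA hB => ?_⟩⟩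
    rw [dim_along (key x hx a ha A hA), dim_along (key x hx b hb B hB)]
    norm_num
  · intro b s hb hs hbs x hx h A hA
    have h1 : OA b A x = Icc 0 1 := by
      refine along hb (fun k hk => ?_) hA
      have hbk : 2 ≤ b ^ k := hb.trans (Nat.le_self_pow (by omega) b)
      have h2 := SmoothLiouville.result (b ^ k) s hbk hs (Nat.Coprime.pow_left k hbs) (Int.fract x)
        ⟨Int.fract_nonneg _, Int.fract_lt_one _⟩ (by
          rw [← Int.self_sub_floor]
          exact hx.sub_intCast _) (by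
          intro K
          obtain ⟨q, hq1, hq2, c, hc⟩ := h (max K (b ^ k))
          refine ⟨q, (le_max_left _ _).trans hq1, hq2, c - q * ⌊x⌋, ?_⟩
          have e : (q : ℝ) * Int.fract x - ((c - q * ⌊x⌋ : ℤ) : ℝ) = q * x - c := by
            rw [← Int.self_sub_floor]
            push_cast
            ring
          rw [e]
          refine hc.trans ?_
          have hqb : ((b ^ k : ℕ) : ℝ) ≤ q := by exact_mod_cast (le_max_right _ _).trans hq1
          have hb0 : (0 : ℝ) < ((b ^ k : ℕ) : ℝ) := by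
            have : 0 < b ^ k := by positivity
            exact_mod_cast this
          apply one_div_le_one_div_of_le (pow_pos hb0 _)
          exact pow_le_pow_left₀ hb0.le hqb _)
      have h3 := h2.1
      unfold SmoothLiouville.orb at h3
      rw [← h3]
      congr 1
      apply congrArg
      funext n
      have := fract_orbit ((b ^ k) ^ n) x
      push_cast at this ⊢
      rw [this]
    refine ⟨h1, fun a B => ?_⟩
    rw [dim_along h1]
    exact le_add_self

end Pool.Agent.Results.MP_c9a594_an.LiouvilleAlongVisits
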