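import Pool.Agent.Q187.SA.Pair

/-!
# Furstenberg's inequality for numbers with very good approximations by smooth denominators
-/

set_option autoImplicit false

namespace Pool.Agent.Results.MP_c9a594_an.SmoothApproximable

/-- the closure of the orbit of `x` under `y ↦ m y mod 1` -/
def O (m : ℕ) (x : ℝ) : Set ℝ := closure (Set.range (fun n : ℕ => Int.fract ((m : ℝ) ^ n * x)))

/-- all prime factors of `q` divide `s` -/
def Smooth (s q : ℕ) : Prop := ∀ p : ℕ, p.Prime → p ∣ q → p ∣ s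

/-- there are arbitrarily large `q`, all of whose primes divide `s`, and integers `c` with
`|x - c/q| < exp(-q^δ)` -/
def Approx (s : ℕ) (δ x : ℝ) : Prop :=
  ∀ Q : ℕ, ∃ q : ℕ, Q ≤ q ∧ Smooth s q ∧ ∃ c : ℤ, |x - c / q| < Real.exp (-(q : ℝ) ^ δ)

/-- (1) Let `b ≥ 2` be coprime to `s ≥ 1`, `r ≥ 1` and `ε > 0`. There are `C`, `Q` such that for all
`q ≥ Q` all of whose primes divide `s` and all `c` coprime to `q` the numbers `b^k c / q` with
`k ≤ C q^(1/r)` are `ε`-dense modulo `1`.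

(2) Let `δ > 0` and let `x` be irrational with `Approx s δ x`. Then the orbit of `x` under
multiplication by `b` is dense for every `b ≥ 2` coprime to `s`; and if `a, b ≥ 2` and no prime
divides all of `s`, `a`, `b`, then the orbit of `x` under `a` or the one under `b` is dense, and
Furstenberg's inequality holds. -/
theorem result :
    (∀ b s : ℕ, 2 ≤ b → 1 ≤ s → Nat.Coprime b s → ∀ r : ℕ, 1 ≤ r → ∀ ε : ℝ, 0 < ε →
      ∃ C Q : ℕ, ∀ (q : ℕ) (c : ℤ), Q ≤ q → 1 ≤ q → Smooth s q → IsCoprime c (q : ℤ) →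
        ∀ y : ℝ, ∃ k : ℕ, (k : ℝ) ≤ C * (q : ℝ) ^ (1 / (r : ℝ)) ∧
          ∃ z : ℤ, |(b : ℝ) ^ k * c / q - y - z| < ε) ∧
    (∀ s : ℕ, 1 ≤ s → ∀ δ : ℝ, 0 < δ → ∀ x : ℝ, x ∈ Set.Ico (0 : ℝ) 1 → Irrational x →
      Approx s δ x →
        (∀ b : ℕ, 2 ≤ b → Nat.Coprime b s → O b x = Set.Icc 0 1) ∧
        ∀ a b : ℕ, 2 ≤ a → 2 ≤ b → (∀ p : ℕ, p.Prime → ¬ (p ∣ s ∧ p ∣ a ∧ p ∣ b)) →
          (O a x = Set.Icc 0 1 ∨ O b x = Set.Icc 0 1) ∧ 1 ≤ dimH (O a x) + dimH (O b x)) := by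
  refine ⟨?_, ?_⟩
  · intro b s hb hs hbs r hr ε hε
    obtain ⟨C, Q, h⟩ := Pool.Agent.Q187.SA.hits_uniform hb hs hbs (r - 1) hε
    refine ⟨C, Q, fun q c hQ hq hqs hco y => ?_⟩
    obtain ⟨k, hk, hz⟩ := h q c hQ hq hqs hco y
    have e1 : (((r - 1 : ℕ) : ℝ) + 1) = r := by
      rw [Nat.cast_sub hr]; push_cast; ring
    rw [e1] at hk
    exact ⟨k, hk, hz⟩
  · intro s hs δ hδ x _ hx hA
    have hdim : dimH (Set.Icc (0 : ℝ) 1) = 1 := by
      have := Real.dimH_of_nonempty_interior (E := ℝ) (s := Set.Icc (0 : ℝ) 1)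
        (by rw [interior_Icc]; exact ⟨1 / 2, by norm_num, by norm_num⟩)
      rw [this]
      simp
    refine ⟨fun b hb hbs => Pool.Agent.Q187.SA.coprime_base hb hs hbs hx hδ hA, ?_⟩
    intro a b ha hb hab
    have h := Pool.Agent.Q187.SA.two_bases ha hb hs
      (fun p hp h1 h2 h3 => hab p hp ⟨h1, h2, h3⟩) hx hδ hA
    have h' : O a x = Set.Icc 0 1 ∨ O b x = Set.Icc 0 1 := h
    refine ⟨h', ?_⟩
    rcases h' with h1 | h1
    · rw [h1, hdim]
      exact le_self_add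
    · rw [h1, hdim]
      exact le_add_self

end Pool.Agent.Results.MP_c9a594_an.SmoothApproximable
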